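import Pool.Agent.Y90.S.Jobs

/-!
# Balanced products of blocks (job S4 JCore of project S4, helper407)
-/

set_option linter.unusedSectionVars false

namespace Pool.Agent.Y407.S4

open Matrix Module Pool.Agent.W437.HC Pool.Agent.W437.HD Pool.Agent.W548.Odd Pool.Agent.TH504.CB
open Pool.Agent.H204R3.CM (IsHodge)
open Pool.Agent.W437.HP (cK cK_mul cK_one)
open Pool.Agent.Y90 hiding NG clo_NG push_memG cm_memG
open Pool.Agent.Y90.S

noncomputable section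

theorem cK_P1 {A B B' : Type} [Fintype A] [Fintype B] [DecidableEq B] [Fintype B'] [DecidableEq B']
    (Q : Matrix A B ℚ) (x : B ⊕ B' → ℂ) :
    cK ℂ (Q * P1 B B') *ᵥ x = cK ℂ Q *ᵥ (fun i => x (Sum.inl i)) := by
  rw [cK_mul, ← mulVec_mulVec, P1_mulVec]

theorem comm_mul {A B B' : Type} [Fintype A] [Fintype B] [Fintype B'] {D : Matrix A A ℂ}
    {D' : Matrix B B ℂ} {D'' : Matrix B' B' ℂ} {P : Matrix A B ℚ} {P' : Matrix B B' ℚ}
    (hP : cK ℂ P * D' = D * cK ℂ P) (hP' : cK ℂ P' * D'' = D' * cK ℂ P') :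
    cK ℂ (P * P') * D'' = D * cK ℂ (P * P') := by
  rw [cK_mul, Matrix.mul_assoc, hP', ← Matrix.mul_assoc, hP, Matrix.mul_assoc]

theorem blk_comp {m w : ℕ} {B B' : Type} [Fintype B] [DecidableEq B] [Fintype B'] [DecidableEq B']
    {J : Matrix B B ℝ} {J' : Matrix B' B' ℝ} {ι : Type} [Fintype ι] [DecidableEq ι]
    {M : MultilinearMap ℂ (fun _ : ι => B → ℂ) ℂ} {ε : (ℂ ≃+* ℂ) → ℂ} (h : Blk m w J M ε)
    {P : Matrix B B' ℚ} (hP : cK ℂ P * DJ J' = DJ J * cK ℂ P) :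
    Blk m w J' (M.compLinearMap fun _ => mulVecLin (cK ℂ P)) ε := by
  obtain ⟨t, d, β, h1, h2, h3, h4, h5⟩ := h
  refine ⟨t, d, β, h1, h2, h3, h4, ?_⟩
  intro B'' _ _ T'' _ _ per'' J'' hc hX P' hP' R hR F hF
  refine h5 hc hX (P * P') (comm_mul hP hP') R hR F fun v => ?_
  rw [hF, MultilinearMap.compLinearMap_apply]
  congr 2
  funext y
  rw [mulVecLin_apply, mulVec_mulVec, cK_mul]

/-- The slots of the first block and of the remaining form. -/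
def slot0 {n : ℕ} (ι : Fin (n + 1) → Type) (L : Type) (t : ℕ) :
    (ι 0 ⊕ Fin t) ⊕ ((Σ q : Fin n, ι q.succ) ⊕ (L ⊕ Fin t)) ≃
      ((Σ q : Fin (n + 1), ι q) ⊕ L) ⊕ (Fin t ⊕ Fin t) where
  toFun x := match x with
    | Sum.inl (Sum.inl y) => Sum.inl (Sum.inl ⟨0, y⟩)
    | Sum.inl (Sum.inr j) => Sum.inr (Sum.inl j)
    | Sum.inr (Sum.inl ⟨q, y⟩) => Sum.inl (Sum.inl ⟨q.succ, y⟩)
    | Sum.inr (Sum.inr (Sum.inl b)) => Sum.inl (Sum.inr b)
    | Sum.inr (Sum.inr (Sum.inr j)) => Sum.inr (Sum.inr j)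
  invFun x := match x with
    | Sum.inl (Sum.inl ⟨q, y⟩) =>
        Fin.cases (motive := fun q => ι q →
          (ι 0 ⊕ Fin t) ⊕ ((Σ q : Fin n, ι q.succ) ⊕ (L ⊕ Fin t)))
          (fun y => Sum.inl (Sum.inl y)) (fun q y => Sum.inr (Sum.inl ⟨q, y⟩)) q y
    | Sum.inl (Sum.inr b) => Sum.inr (Sum.inr (Sum.inl b))
    | Sum.inr (Sum.inl j) => Sum.inl (Sum.inr j)
    | Sum.inr (Sum.inr j) => Sum.inr (Sum.inr (Sum.inr j))
  left_inv x := by
    rcases x with ((y | j) | (⟨q, y⟩ | (b | j))) <;> rfl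
  right_inv x := by
    rcases x with ((⟨q, y⟩ | b) | (j | j))
    · revert y
      refine Fin.cases ?_ (fun q => ?_) q
      · intro y; rfl
      · intro y; rfl
    · rfl
    · rfl
    · rfl

/-- The slots of the last pair. -/
def slot1 (K : Type) (s : ℕ) :
    K ⊕ (Fin (s + 1) ⊕ Fin (s + 1)) ≃ (K ⊕ (Fin s ⊕ Fin s)) ⊕ Fin 2 where
  toFun x := match x with
    | Sum.inl k => Sum.inl (Sum.inl k)
    | Sum.inr (Sum.inl j) => Fin.cases (Sum.inr 0) (fun j => Sum.inl (Sum.inr (Sum.inl j))) j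
    | Sum.inr (Sum.inr j) => Fin.cases (Sum.inr 1) (fun j => Sum.inl (Sum.inr (Sum.inr j))) j
  invFun x := match x with
    | Sum.inl (Sum.inl k) => Sum.inl k
    | Sum.inl (Sum.inr (Sum.inl j)) => Sum.inr (Sum.inl j.succ)
    | Sum.inl (Sum.inr (Sum.inr j)) => Sum.inr (Sum.inr j.succ)
    | Sum.inr k => Fin.cases (Sum.inr (Sum.inl 0)) (fun _ => Sum.inr (Sum.inr 0)) k
  left_inv x := by
    rcases x with (k | (j | j))
    · rfl
    · refine Fin.cases ?_ (fun j => ?_) j <;> rfl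
    · refine Fin.cases ?_ (fun j => ?_) j <;> rfl
  right_inv x := by
    rcases x with ((k | (j | j)) | k)
    · rfl
    · rfl
    · rfl
    · fin_cases k <;> rfl

section inn

variable (m w : ℕ) {n : ℕ} {B : Type} [Fintype B] [DecidableEq B] (J : Matrix B B ℝ)
  (ι : Fin n → Type) [∀ q, Fintype (ι q)] [∀ q, DecidableEq (ι q)]
  (M : ∀ q, MultilinearMap ℂ (fun _ : ι q => B → ℂ) ℂ) {L : Type} [Fintype L] [DecidableEq L]
  (μ : L → (B → ℂ) →ₗ[ℂ] ℂ) (d : ℚ) (β : ℂ)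

/-- The form, multiplied with `s` pairs of functionals, belongs to the system. -/
def Inn (s : ℕ) : Prop :=
  ∀ (B' : Type) [Fintype B'] [DecidableEq B'] (T' : Type) [AddCommGroup T'] [Module ℂ T']
    (per' : (B' → ℚ) →+ T') (J' : Matrix B' B' ℝ) (_ : Cht per' J') (_ : St.IsAV per')
    (P : Matrix B B' ℚ) (_ : cK ℂ P * DJ J' = DJ J * cK ℂ P)
    (R R' : Fin s → Matrix (Fin 1 ⊕ Fin 1) B' ℚ)
    (_ : ∀ j, cK ℂ (R j) * DJ J' = DZ (ZE d) * cK ℂ (R j))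
    (_ : ∀ j, cK ℂ (R' j) * DJ J' = DZ (ZE d) * cK ℂ (R' j))
    (F : MultilinearMap ℂ (fun _ : ((Σ q, ι q) ⊕ L) ⊕ (Fin s ⊕ Fin s) => B' → ℂ) ℂ)
    (_ : ∀ v, F v = ((∏ q, M q (fun y => cK ℂ P *ᵥ v (Sum.inl (Sum.inl ⟨q, y⟩)))) *
      ∏ b, μ b (cK ℂ P *ᵥ v (Sum.inl (Sum.inr b)))) *
      ((∏ j, lamE β (cK ℂ (R j) *ᵥ v (Sum.inr (Sum.inl j)))) *
        ∏ j, lamE (-β) (cK ℂ (R' j) *ᵥ v (Sum.inr (Sum.inr j))))),
    F ∈ NG m w per' (((Σ q, ι q) ⊕ L) ⊕ (Fin s ⊕ Fin s))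

variable {m w J ι M μ d β}

/-- Removing a pair by a push-forward. -/
theorem inn_step (hd : 0 < d) (hβ0 : β ≠ 0) {s : ℕ} (hI : Inn m w J ι M μ d β (s + 1)) :
    Inn m w J ι M μ d β s := by
  intro B' _ _ T' _ _ per' J' hc hX P hP R R' hR hR' F hF
  have h' := hc.prod (pmE hd).cht
  have hXE : St.IsAV (perOne (ZE d)) := isAV_AV (AVZ (pmE hd))
  have hX' := isAV_perP (per' := perOne (ZE d)) hX hXE
  let θ : MultilinearMap ℂ (fun _ : Fin 2 => Fin 1 ⊕ Fin 1 → ℂ) ℂ :=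
    (MultilinearMap.mkPiAlgebra ℂ (Fin 2) ℂ).compLinearMap ![lamE β, lamE (-β)]
  have hθ : ∀ v, θ v = 1 * lamE β (v 0) * lamE (-β) (v 1) := by
    intro v
    change (MultilinearMap.mkPiAlgebra ℂ (Fin 2) ℂ).compLinearMap ![lamE β, lamE (-β)] v = _
    rw [MultilinearMap.compLinearMap_apply, MultilinearMap.mkPiAlgebra_apply,
      Fin.prod_univ_two, one_mul]
    rfl
  let F2 : MultilinearMap ℂ (fun _ : (((Σ q, ι q) ⊕ L) ⊕ (Fin s ⊕ Fin s)) ⊕ Fin 2 =>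
      B' ⊕ (Fin 1 ⊕ Fin 1) → ℂ) ℂ :=
    prd (F.compLinearMap fun _ => LinearMap.funLeft ℂ ℂ Sum.inl)
      (θ.compLinearMap fun _ => LinearMap.funLeft ℂ ℂ Sum.inr)
  have hF2 : ∀ x, F2 x = F (fun k i => x (Sum.inl k) (Sum.inl i)) *
    θ (fun k i => x (Sum.inr k) (Sum.inr i)) := fun x => rfl
  let G : MultilinearMap ℂ (fun _ : ((Σ q, ι q) ⊕ L) ⊕ (Fin (s + 1) ⊕ Fin (s + 1)) =>
      B' ⊕ (Fin 1 ⊕ Fin 1) → ℂ) ℂ := F2.domDomCongr (slot1 _ s).symm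
  have hGv : ∀ v, G v = F2 (fun k => v ((slot1 _ s).symm k)) := fun v => rfl
  have hG : G ∈ NG m w (perP per' (perOne (ZE d)))
      (((Σ q, ι q) ⊕ L) ⊕ (Fin (s + 1) ⊕ Fin (s + 1))) := by
    refine hI _ _ _ _ h' hX' (P * P1 B' (Fin 1 ⊕ Fin 1)) (comm_mul hP (P1_comm J' _))
      (Fin.cons (P2 B' (Fin 1 ⊕ Fin 1)) fun j => R j * P1 B' (Fin 1 ⊕ Fin 1))
      (Fin.cons (P2 B' (Fin 1 ⊕ Fin 1)) fun j => R' j * P1 B' (Fin 1 ⊕ Fin 1))
      ?_ ?_ G fun v => ?_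
    · intro j
      refine Fin.cases ?_ (fun j => ?_) j
      · exact P2_comm J' _
      · exact comm_mul (hR j) (P1_comm J' _)
    · intro j
      refine Fin.cases ?_ (fun j => ?_) j
      · exact P2_comm J' _
      · exact comm_mul (hR' j) (P1_comm J' _)
    · rw [hGv, hF2, hF, hθ, Fin.prod_univ_succ, Fin.prod_univ_succ]
      simp only [Fin.cons_zero, Fin.cons_succ, cK_P1, P2_mulVec]
      have e1 : ∀ k, (slot1 ((Σ q, ι q) ⊕ L) s).symm (Sum.inl (Sum.inl k)) = Sum.inl k :=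
        fun _ => rfl
      have e2 : ∀ j, (slot1 ((Σ q, ι q) ⊕ L) s).symm (Sum.inl (Sum.inr (Sum.inl j))) =
        Sum.inr (Sum.inl j.succ) := fun _ => rfl
      have e3 : ∀ j, (slot1 ((Σ q, ι q) ⊕ L) s).symm (Sum.inl (Sum.inr (Sum.inr j))) =
        Sum.inr (Sum.inr j.succ) := fun _ => rfl
      have e4 : (slot1 ((Σ q, ι q) ⊕ L) s).symm (Sum.inr 0) = Sum.inr (Sum.inl 0) := rfl
      have e5 : (slot1 ((Σ q, ι q) ⊕ L) s).symm (Sum.inr 1) = Sum.inr (Sum.inr 0) := rfl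
      simp only [e1, e2, e3, e4, e5]
      ring
  have hF2m : F2 ∈ NG m w (perP per' (perOne (ZE d)))
      ((((Σ q, ι q) ⊕ L) ⊕ (Fin s ⊕ Fin s)) ⊕ Fin 2) := by
    refine (clo_NG hX').reindex (slot1 _ s) hG F2 fun v => ?_
    rw [hGv]
    congr 1
    funext k
    rw [Equiv.apply_symm_apply]
  exact push_memG hX hXE bE hF2 hF2m (altQ_E hβ0 one_ne_zero hθ)

theorem inn_zero (hd : 0 < d) (hβ0 : β ≠ 0) : ∀ {s : ℕ}, Inn m w J ι M μ d β s →
    Inn m w J ι M μ d β 0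
  | 0, h => h
  | _ + 1, h => inn_zero hd hβ0 (inn_step hd hβ0 h)

/-- The conclusion from the form without pairs. -/
theorem of_inn_zero (hI : Inn m w J ι M μ d β 0) {T : Type} [AddCommGroup T] [Module ℂ T]
    {per : (B → ℚ) →+ T} (h : Cht per J) (hX : St.IsAV per)
    (ψ : MultilinearMap ℂ (fun _ : (Σ q, ι q) ⊕ L => B → ℂ) ℂ)
    (hψ : ∀ v, ψ v = (∏ q, M q (fun y => v (Sum.inl ⟨q, y⟩))) * ∏ b, μ b (v (Sum.inr b))) :
    ψ ∈ NG m w per ((Σ q, ι q) ⊕ L) := by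
  let e : ((Σ q, ι q) ⊕ L) ⊕ (Fin 0 ⊕ Fin 0) ≃ (Σ q, ι q) ⊕ L := Equiv.sumEmpty _ _
  have h1 : ψ.domDomCongr e.symm ∈ NG m w per (((Σ q, ι q) ⊕ L) ⊕ (Fin 0 ⊕ Fin 0)) := by
    refine hI _ _ per J h hX 1 (by rw [cK_one, Matrix.one_mul, Matrix.mul_one]) Fin.elim0
      Fin.elim0 (fun j => j.elim0) (fun j => j.elim0) _ fun v => ?_
    rw [MultilinearMap.domDomCongr_apply, hψ]
    simp only [cK_one, one_mulVec, Finset.univ_eq_empty, Finset.prod_empty, mul_one]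
    rfl
  refine (clo_NG hX).reindex e h1 ψ fun v => ?_
  rw [MultilinearMap.domDomCongr_apply]
  congr 1

end inn

/-- **Balanced products of blocks and lines belong to the system.** -/
theorem core : Pool.Agent.Y90.S.JCore := by
  intro m w hm n
  induction n with
  | zero =>
    intro B _ _ T _ _ per J h hX ι _ _ M εM hM L _ _ μ εL hL hsum ψ hψ
    let e : L ≃ (Σ q : Fin 0, ι q) ⊕ L := (Equiv.emptySum (Σ q : Fin 0, ι q) L).symm
    choose a Z lam h1 h2 h3 h4 h5 h6 using hL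
    have hsum' : ∀ σ, ∑ b, εL b σ = 0 := by
      intro σ
      have h7 := hsum σ
      rwa [Finset.univ_eq_empty, Finset.sum_empty, zero_add] at h7
    refine (clo_NG hX).reindex e (φ := (MultilinearMap.mkPiAlgebra ℂ L ℂ).compLinearMap μ)
      (cm_memG h1 lam εL h5 hsum' h2 h3 h4 h hX μ h6 _ fun v => ?_) ψ fun v => ?_
    · rw [MultilinearMap.compLinearMap_apply, MultilinearMap.mkPiAlgebra_apply]
    · rw [hψ, Finset.univ_eq_empty, Finset.prod_empty, one_mul,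
        MultilinearMap.compLinearMap_apply, MultilinearMap.mkPiAlgebra_apply]
      rfl
  | succ n ih =>
    intro B _ _ T _ _ per J h hX ι _ _ M εM hM L _ _ μ εL hL hsum ψ hψ
    obtain ⟨t, d, β, hd, hβ0, hββ, hε, hBlk⟩ := hM 0
    have hββ' : (-β) * (-β) = -(d : ℂ) := by rw [neg_mul_neg, hββ]
    refine of_inn_zero (d := d) (β := β) (inn_zero hd hβ0 (s := t) ?_) h hX ψ hψ
    intro B' _ _ T' _ _ per' J' hc hX' P hP R R' hR hR' F hF
    -- the first block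
    let Φ₁ : MultilinearMap ℂ (fun _ : ι 0 ⊕ Fin t => B' → ℂ) ℂ :=
      prd ((M 0).compLinearMap fun _ => mulVecLin (cK ℂ P))
        ((MultilinearMap.mkPiAlgebra ℂ (Fin t) ℂ).compLinearMap
          fun j => (lamE β).comp (mulVecLin (cK ℂ (R j))))
    have hΦ₁ : ∀ v, Φ₁ v = M 0 (fun y => cK ℂ P *ᵥ v (Sum.inl y)) *
        ∏ j, lamE β (cK ℂ (R j) *ᵥ v (Sum.inr j)) := by
      intro v
      change prd _ _ v = _
      rw [prd_apply, MultilinearMap.compLinearMap_apply, MultilinearMap.compLinearMap_apply,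
        MultilinearMap.mkPiAlgebra_apply]
      rfl
    have hm₁ : Φ₁ ∈ NG m w per' (ι 0 ⊕ Fin t) := hBlk hc hX' P hP R hR Φ₁ hΦ₁
    -- the remaining form
    obtain ⟨Ψ₁, hΨ₁⟩ := exists_prodML (fun q : Fin n => ι q.succ)
      (fun q => (M q.succ).compLinearMap fun _ => mulVecLin (cK ℂ P))
    let μ' : L ⊕ Fin t → (B' → ℂ) →ₗ[ℂ] ℂ :=
      Sum.elim (fun b => (μ b).comp (mulVecLin (cK ℂ P)))
        (fun j => (lamE (-β)).comp (mulVecLin (cK ℂ (R' j))))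
    let Φ₂ : MultilinearMap ℂ (fun _ : (Σ q : Fin n, ι q.succ) ⊕ (L ⊕ Fin t) => B' → ℂ) ℂ :=
      prd Ψ₁ ((MultilinearMap.mkPiAlgebra ℂ (L ⊕ Fin t) ℂ).compLinearMap μ')
    have hΦ₂0 : ∀ v, Φ₂ v = (∏ q : Fin n, (M q.succ).compLinearMap
        (fun _ => mulVecLin (cK ℂ P)) (fun y => v (Sum.inl ⟨q, y⟩))) *
        ∏ b, μ' b (v (Sum.inr b)) := by
      intro v
      change prd _ _ v = _
      rw [prd_apply, hΨ₁, MultilinearMap.compLinearMap_apply, MultilinearMap.mkPiAlgebra_apply]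
    have hΦ₂ : ∀ v, Φ₂ v = (∏ q : Fin n, M q.succ (fun y => cK ℂ P *ᵥ v (Sum.inl ⟨q, y⟩))) *
        ((∏ b, μ b (cK ℂ P *ᵥ v (Sum.inr (Sum.inl b)))) *
          ∏ j, lamE (-β) (cK ℂ (R' j) *ᵥ v (Sum.inr (Sum.inr j)))) := by
      intro v
      rw [hΦ₂0, Fintype.prod_sum_type]
      rfl
    have hm₂ : Φ₂ ∈ NG m w per' ((Σ q : Fin n, ι q.succ) ⊕ (L ⊕ Fin t)) := by
      refine ih B' T' per' J' hc hX' (fun q => ι q.succ) (fun q => (M q.succ).compLinearMap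
        fun _ => mulVecLin (cK ℂ P)) (fun q => εM q.succ)
        (fun q => blk_comp (hM q.succ) hP) (L ⊕ Fin t) μ'
        (Sum.elim εL (fun _ => fun σ => (σ (dE d))⁻¹ * (-β))) ?_ ?_ Φ₂ hΦ₂0
      · rintro (b | j)
        · exact (hL b).comp hP
        · exact ⟨1, ZE d, lamE (-β), pmE hd, simE hd, cmE hd, hm, lamE_DS hd hββ',
            Submodule.subset_span ⟨_, ⟨R' j, rfl, hR' j⟩, rfl⟩⟩
      · intro σ
        have h1 := hsum σ
        rw [Fin.sum_univ_succ, hε] at h1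
        rw [Fintype.sum_sum_type]
        simp only [Sum.elim_inl, Sum.elim_inr, Finset.sum_const, Finset.card_univ,
          Fintype.card_fin, nsmul_eq_mul]
        rw [← h1]
        ring
    refine (clo_NG hX').mul _ _ _ (slot0 ι L t) Φ₁ Φ₂ F hm₁ hm₂ fun v => ?_
    rw [hF, hΦ₁, hΦ₂, Fin.prod_univ_succ]
    have e1 : ∀ y, slot0 ι L t (Sum.inl (Sum.inl y)) = Sum.inl (Sum.inl ⟨0, y⟩) := fun _ => rfl
    have e2 : ∀ j, slot0 ι L t (Sum.inl (Sum.inr j)) = Sum.inr (Sum.inl j) := fun _ => rfl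
    have e3 : ∀ q y, slot0 ι L t (Sum.inr (Sum.inl ⟨q, y⟩)) = Sum.inl (Sum.inl ⟨q.succ, y⟩) :=
      fun _ _ => rfl
    have e4 : ∀ b, slot0 ι L t (Sum.inr (Sum.inr (Sum.inl b))) = Sum.inl (Sum.inr b) :=
      fun _ => rfl
    have e5 : ∀ j, slot0 ι L t (Sum.inr (Sum.inr (Sum.inr j))) = Sum.inr (Sum.inr j) :=
      fun _ => rfl
    simp only [e1, e2, e3, e4, e5]
    ring

end

end Pool.Agent.Y407.S4
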